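import Pool.Graph.R_pool_sql_team_seeded_2aa45f1a.Q328.AC.Most

/-!
# Lists of candidates, thresholds

Computable bounds from enumerations of boundedly many candidates.
-/

set_option autoImplicit false
set_option linter.unusedSectionVars false

namespace Pool.Agent.Helper98.RA

open Pool.Agent.Q49.EF Pool.Agent.Q328.AC

variable {α : Type} [Primcodable α]

/-- the enumeration `E` lists for the input `a` at most `k` different numbers -/
def AtMost (k : ℕ) (E : α × ℕ → Option ℕ) (a : α) : Prop :=
  ∃ S : Finset ℕ, S.card ≤ k ∧ ∀ n c, E (a, n) = some c → c ∈ S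

/-- What is needed about the relation `V a c` (`c` is a bound for `a`). -/
structure Directed (V : α → ℕ → Prop) (m : α × ℕ → α) : Prop where
  /-- one can list the `(a, c)` for which `c` is not a bound, up to weakening the bounds -/
  approx : ∃ (W : α → ℕ → Prop) (U : α × ℕ → ℕ) (r : (α × ℕ) × ℕ → Bool), Computable U ∧
    Computable r ∧ (∀ a c, V a c → W a c) ∧ (∀ a c, W a c → V a (U (a, c))) ∧
    ∀ a c, ¬ W a c ↔ ∃ t, r ((a, c), t) = true
  mult_computable : Computable m
  /-- bounds for the multiples of `a` are bounds for `a` -/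
  mult : ∀ a i c, V (m (a, i)) c → V a c
  /-- common multiples -/
  common : ∀ s : α, ∃ q : α → ℕ, Computable q ∧ ∀ a c, V (m (s, q a)) c → V a c

/-- removal of one value -/
def rem (E : α × ℕ → Option ℕ) (t : α → α) (c₁ : α → ℕ) (z : α × ℕ) : Option ℕ :=
  Option.bind (E (t z.1, z.2)) fun c => cond (c == c₁ (t z.1)) none (some c)

lemma rem_computable {E : α × ℕ → Option ℕ} (hE : Computable E) {t : α → α} (ht : Computable t)
    {c₁ : α → ℕ} (hc : Computable c₁) : Computable (rem E t c₁) := by
  have h1 : Computable fun z : α × ℕ => E (t z.1, z.2) :=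
    hE.comp (Computable.pair (ht.comp Computable.fst) Computable.snd)
  have h2 : Computable fun w : (α × ℕ) × ℕ => (w.2 == c₁ (t w.1.1)) :=
    Primrec.beq.to_comp.comp Computable.snd
      (hc.comp (ht.comp (Computable.fst.comp Computable.fst)))
  have h3 : Computable₂ fun (z : α × ℕ) (c : ℕ) => cond (c == c₁ (t z.1)) none (some c) :=
    Computable.cond h2 (Computable.const none) (Computable.option_some.comp Computable.snd)
  exact Computable.option_bind h1 h3

lemma rem_eq {E : α × ℕ → Option ℕ} {t : α → α} {c₁ : α → ℕ} {a : α} {n c : ℕ} :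
    rem E t c₁ (a, n) = some c ↔ E (t a, n) = some c ∧ c ≠ c₁ (t a) := by
  unfold rem
  cases h : E (t a, n) with
  | none => simp
  | some d =>
    by_cases hd : d = c₁ (t a)
    · subst hd
      simp
      rintro rfl
      rfl
    · simp only [Option.bind_some, Option.some.injEq]
      have : (d == c₁ (t a)) = false := by simpa using hd
      rw [this, cond_false, Option.some.injEq]
      constructor
      · rintro rfl
        exact ⟨rfl, hd⟩
      · rintro ⟨rfl, -⟩
        rfl

/-- **Lists of boundedly many candidates are enough.** -/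
theorem bound_of_list {V : α → ℕ → Prop} {m : α × ℕ → α} (hV : Directed V m) (k : ℕ) :
    ∀ E : α × ℕ → Option ℕ, Computable E →
      (∀ a, AtMost k E a ∧ ∃ n c, E (a, n) = some c ∧ V a c) →
      ∃ f : α → ℕ, Computable f ∧ ∀ a, V a (f a) := by
  obtain ⟨⟨W, U, r, hU, hr, hVW, hWV, hW⟩, hm, hmult, hcommon⟩ := hV
  induction k with
  | zero =>
    intro E hE h
    refine ⟨fun _ => 0, Computable.const 0, fun a => ?_⟩
    obtain ⟨⟨S, hS, h1⟩, n, c, h2, -⟩ := h a
    have h3 := h1 n c h2
    rw [Finset.card_eq_zero.mp (Nat.le_zero.mp hS)] at h3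
    simp at h3
  | succ k ih =>
    intro E hE h
    -- the first candidate
    have h1 : Computable fun z : α × ℕ => (E z).isSome :=
      Primrec.option_isSome.to_comp.comp hE
    obtain ⟨n₁, hn₁, hn₁'⟩ := search h1 fun a => by
      obtain ⟨-, n, c, h2, -⟩ := h a
      exact ⟨n, by rw [h2]; rfl⟩
    set c₁ : α → ℕ := fun a => (E (a, n₁ a)).getD 0 with hc₁
    have hc : Computable c₁ := Computable.option_getD
      (hE.comp (Computable.pair Computable.id hn₁)) (Computable.const 0)
    have hc1 : ∀ a, E (a, n₁ a) = some (c₁ a) := by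
      intro a
      obtain ⟨d, hd⟩ := Option.isSome_iff_exists.mp (hn₁' a)
      rw [hc₁]
      simp only [hd, Option.getD_some]
    by_cases hA : ∃ s, ∀ i, W (m (s, i)) (c₁ (m (s, i)))
    · -- the first candidate is right for all multiples of `s`
      obtain ⟨s, hs⟩ := hA
      obtain ⟨q, hq, hq'⟩ := hcommon s
      have e1 : Computable fun a => m (s, q a) :=
        hm.comp (Computable.pair (Computable.const s) hq)
      refine ⟨fun a => U (m (s, q a), c₁ (m (s, q a))),
        hU.comp (Computable.pair e1 (hc.comp e1)), fun a => ?_⟩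
      exact hq' _ _ (hWV _ _ (hs (q a)))
    · push Not at hA
      -- a multiple for which it is wrong
      have e0 : Computable fun z : α × ℕ => m (z.1, z.2.unpair.1) :=
        hm.comp (Computable.pair Computable.fst
          ((Primrec.fst.comp Primrec.unpair).to_comp.comp Computable.snd))
      have e1 : Computable fun z : α × ℕ => r ((m (z.1, z.2.unpair.1), c₁ (m (z.1, z.2.unpair.1))),
          z.2.unpair.2) :=
        hr.comp (Computable.pair (Computable.pair e0 (hc.comp e0))
          ((Primrec.snd.comp Primrec.unpair).to_comp.comp Computable.snd))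
      obtain ⟨y, hy, hy'⟩ := search e1 fun a => by
        obtain ⟨i, hi⟩ := hA a
        obtain ⟨t, ht⟩ := (hW _ _).mp hi
        exact ⟨Nat.pair i t, by simpa using ht⟩
      set t : α → α := fun a => m (a, (y a).unpair.1) with ht
      have htc : Computable t :=
        hm.comp (Computable.pair Computable.id
          ((Primrec.fst.comp Primrec.unpair).to_comp.comp hy))
      have hwrong : ∀ a, ¬ W (t a) (c₁ (t a)) := fun a => (hW _ _).mpr ⟨_, hy' a⟩
      refine ih (rem E t c₁) (rem_computable hE htc hc) fun a => ?_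
      obtain ⟨⟨S, hS, h2⟩, n, c, h3, h4⟩ := h (t a)
      refine ⟨⟨S.erase (c₁ (t a)), ?_, fun n d hd => ?_⟩, n, c, ?_, ?_⟩
      · rw [Finset.card_erase_of_mem (h2 _ _ (hc1 (t a)))]
        omega
      · obtain ⟨h5, h6⟩ := rem_eq.mp hd
        exact Finset.mem_erase.mpr ⟨h6, h2 _ _ h5⟩
      · refine rem_eq.mpr ⟨h3, ?_⟩
        rintro rfl
        exact hwrong a (hVW _ _ h4)
      · exact hmult _ _ _ h4

/-! ### Thresholds -/

/-- the stage `s` is the first one at which the level `l` is reached -/
def first (L : α × ℕ → ℕ) (w : (α × ℕ) × ℕ) : Bool :=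
  decide (w.1.2 ≤ L (w.1.1, w.2)) &&
    !(ex (fun v : ((α × ℕ) × ℕ) × ℕ => decide (v.1.1.2 ≤ L (v.1.1.1, v.2))) w w.2)

lemma le_computable {β : Type} [Primcodable β] {f g : β → ℕ} (hf : Computable f)
    (hg : Computable g) : Computable fun b => decide (f b ≤ g b) := by
  have : Primrec fun z : ℕ × ℕ => decide (z.1 ≤ z.2) :=
    (Primrec.nat_le.decide.comp Primrec.fst Primrec.snd)
  exact this.to_comp.comp (Computable.pair hf hg)

lemma first_computable {L : α × ℕ → ℕ} (hL : Computable L) : Computable (first L) := by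
  have e1 : Computable fun w : (α × ℕ) × ℕ => (w.1.1, w.2) :=
    Computable.pair (Computable.fst.comp Computable.fst) Computable.snd
  have e2 : Computable fun v : ((α × ℕ) × ℕ) × ℕ => (v.1.1.1, v.2) :=
    Computable.pair (Computable.fst.comp (Computable.fst.comp Computable.fst)) Computable.snd
  have e3 : Computable fun v : ((α × ℕ) × ℕ) × ℕ => decide (v.1.1.2 ≤ L (v.1.1.1, v.2)) :=
    le_computable (Computable.snd.comp (Computable.fst.comp Computable.fst)) (hL.comp e2)
  have e4 : Computable fun w : (α × ℕ) × ℕ => decide (w.1.2 ≤ L (w.1.1, w.2)) :=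
    le_computable (Computable.snd.comp Computable.fst) (hL.comp e1)
  exact Primrec.and.to_comp.comp e4 (Primrec.not.to_comp.comp
    ((ex_computable e3).comp (Computable.pair Computable.id Computable.snd)))

lemma first_iff {L : α × ℕ → ℕ} {a : α} {l s : ℕ} : first L ((a, l), s) = true ↔
    l ≤ L (a, s) ∧ ∀ s' < s, L (a, s') < l := by
  unfold first
  rw [Bool.and_eq_true, Bool.not_eq_true', ← Bool.not_eq_true, ex_iff]
  simp only [decide_eq_true_eq, not_exists, not_and, not_le]

/-- the enumeration of the values of `M` at the stages at which a new level is reached -/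
def enum (q : ℕ) (L M : α × ℕ → ℕ) (z : α × ℕ) : Option ℕ :=
  cond (first L ((z.1, z.2 % (q + 1)), z.2 / (q + 1))) (some (M (z.1, z.2 / (q + 1)))) none

lemma enum_computable (q : ℕ) {L M : α × ℕ → ℕ} (hL : Computable L) (hM : Computable M) :
    Computable (enum q L M) := by
  have d : Computable fun z : α × ℕ => z.2 / (q + 1) :=
    (Primrec.nat_div.comp Primrec.snd (Primrec.const (q + 1))).to_comp
  have m : Computable fun z : α × ℕ => z.2 % (q + 1) :=
    (Primrec.nat_mod.comp Primrec.snd (Primrec.const (q + 1))).to_comp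
  exact Computable.cond ((first_computable hL).comp (Computable.pair
    (Computable.pair Computable.fst m) d))
    (Computable.option_some.comp (hM.comp (Computable.pair Computable.fst d)))
    (Computable.const none)

lemma enum_atMost (q : ℕ) (L M : α × ℕ → ℕ) (a : α) : AtMost (q + 1) (enum q L M) a := by
  classical
  refine ⟨(Finset.range (q + 1)).image fun l =>
    if h : ∃ s, l ≤ L (a, s) then M (a, Nat.find h) else 0,
    Finset.card_image_le.trans (Finset.card_range _).le, fun n c hc => ?_⟩
  rw [Finset.mem_image]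
  unfold enum at hc
  cases h : first L ((a, n % (q + 1)), n / (q + 1)) with
  | false => simp only [h, cond_false] at hc; exact absurd hc (by simp)
  | true =>
    simp only [h, cond_true, Option.some.injEq] at hc
    obtain ⟨h1, h2⟩ := first_iff.mp h
    refine ⟨n % (q + 1), Finset.mem_range.mpr (Nat.mod_lt _ (Nat.succ_pos _)), ?_⟩
    have h3 : ∃ s, n % (q + 1) ≤ L (a, s) := ⟨_, h1⟩
    rw [dif_pos h3, ← hc]
    congr 2
    refine le_antisymm (Nat.find_min' h3 h1) ?_
    by_contra h4
    exact absurd (Nat.find_spec h3) (not_le.mpr (h2 _ (not_le.mp h4)))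

/-- if the level is bounded by `q` then the value of `M` at the stage at which the final level is reached
is listed -/
lemma exists_enum {q : ℕ} {L : α × ℕ → ℕ} (M : α × ℕ → ℕ) {a : α} (hq : ∀ s, L (a, s) ≤ q) :
    ∃ s n, enum q L M (a, n) = some (M (a, s)) ∧ ∀ s', L (a, s') ≤ L (a, s) := by
  classical
  obtain ⟨l, hl⟩ : ∃ l, (∃ s, l = L (a, s)) ∧ ∀ s, L (a, s) ≤ l := by
    have hb : BddAbove (Set.range fun s => L (a, s)) := ⟨q, by rintro _ ⟨s, rfl⟩; exact hq s⟩
    have hne : (Set.range fun s => L (a, s)).Nonempty := ⟨_, ⟨0, rfl⟩⟩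
    obtain ⟨s, hs⟩ := Nat.sSup_mem hne hb
    exact ⟨sSup (Set.range fun s => L (a, s)), ⟨s, hs.symm⟩, fun s' => le_csSup hb ⟨s', rfl⟩⟩
  obtain ⟨⟨s₀, hs₀⟩, hl'⟩ := hl
  have h3 : ∃ s, l ≤ L (a, s) := ⟨s₀, hs₀.le⟩
  have hlq : l ≤ q := hs₀ ▸ hq s₀
  refine ⟨Nat.find h3, l + (q + 1) * Nat.find h3, ?_, fun s' => (hl' s').trans (Nat.find_spec h3)⟩
  have e1 : (l + (q + 1) * Nat.find h3) % (q + 1) = l := by
    rw [Nat.add_mul_mod_self_left]
    exact Nat.mod_eq_of_lt (by omega)
  have e2 : (l + (q + 1) * Nat.find h3) / (q + 1) = Nat.find h3 := by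
    rw [Nat.add_mul_div_left _ _ (Nat.succ_pos q), Nat.div_eq_of_lt (by omega), zero_add]
  unfold enum
  simp only [e1, e2]
  have : first L ((a, l), Nat.find h3) = true :=
    first_iff.mpr ⟨Nat.find_spec h3, fun s' hs' => not_le.mp (Nat.find_min h3 hs')⟩
  rw [this, cond_true]

end Pool.Agent.Helper98.RA
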