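import Pool.Agent.Helper98.RA.Core

/-!
# From lists of candidates for most multiples to lists of candidates
-/

set_option autoImplicit false
set_option linter.unusedSectionVars false

namespace Pool.Agent.Helper98.RA

open Pool.Agent.Q49.EF Pool.Agent.Q328.AC

variable {α : Type} [Primcodable α]

/-- a new output -/
def new (E : α × ℕ → Option ℕ) (z : α × ℕ) : Bool :=
  (E z).isSome && !(ex (fun w : (α × ℕ) × ℕ => decide (E (w.1.1, w.2) = E w.1)) z z.2)

lemma new_computable {E : α × ℕ → Option ℕ} (hE : Computable E) : Computable (new E) := by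
  have e0 : Primrec fun z : Option ℕ × Option ℕ => decide (z.1 = z.2) :=
    Primrec.eq.decide.comp Primrec.fst Primrec.snd
  have e1 : Computable fun w : (α × ℕ) × ℕ => decide (E (w.1.1, w.2) = E w.1) :=
    e0.to_comp.comp (Computable.pair
      (hE.comp (Computable.pair (Computable.fst.comp Computable.fst) Computable.snd))
      (hE.comp Computable.fst))
  exact Primrec.and.to_comp.comp (Primrec.option_isSome.to_comp.comp hE)
    (Primrec.not.to_comp.comp ((ex_computable e1).comp (Computable.pair Computable.id Computable.snd)))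

lemma new_iff {E : α × ℕ → Option ℕ} {a : α} {n : ℕ} : new E (a, n) = true ↔
    (E (a, n)).isSome = true ∧ ∀ n' < n, E (a, n') ≠ E (a, n) := by
  unfold new
  rw [Bool.and_eq_true, Bool.not_eq_true', ← Bool.not_eq_true, ex_iff]
  simp only [decide_eq_true_eq, not_exists, not_and, ne_eq]

/-- one of the first `k` new outputs -/
def tr (k : ℕ) (E : α × ℕ → Option ℕ) (z : α × ℕ) : Bool :=
  new E z && decide (cnt (new E) z.1 z.2 + 1 ≤ k)

lemma tr_computable (k : ℕ) {E : α × ℕ → Option ℕ} (hE : Computable E) : Computable (tr k E) :=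
  Primrec.and.to_comp.comp (new_computable hE) (le_computable
    (Computable.succ.comp (cnt_computable (new_computable hE))) (Computable.const k))

lemma cnt_succ (p : α × ℕ → Bool) (a : α) (N : ℕ) :
    cnt p a (N + 1) = cnt p a N + if p (a, N) = true then 1 else 0 := by
  rw [cnt_eq, cnt_eq, Finset.range_add_one, Finset.filter_insert]
  split_ifs with h
  · rw [Finset.card_insert_of_notMem (by simp)]
  · simp

lemma cnt_zero (p : α × ℕ → Bool) (a : α) : cnt p a 0 = 0 := by
  rw [cnt_eq]
  rfl

lemma cnt_mono (p : α × ℕ → Bool) (a : α) {M N : ℕ} (h : M ≤ N) : cnt p a M ≤ cnt p a N := by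
  rw [cnt_eq, cnt_eq]
  exact Finset.card_le_card (Finset.filter_subset_filter _ (Finset.range_subset_range.mpr h))

lemma cnt_lt (p : α × ℕ → Bool) (a : α) {M N n : ℕ} (h : M ≤ n) (h' : n < N)
    (hn : p (a, n) = true) : cnt p a M + 1 ≤ cnt p a N := by
  have h1 := cnt_succ p a n
  rw [if_pos hn] at h1
  exact ((Nat.add_le_add_right (cnt_mono p a h) 1).trans h1.ge).trans (cnt_mono p a h')

/-- at most `k` outputs are left -/
lemma cnt_tr (k : ℕ) (E : α × ℕ → Option ℕ) (a : α) (N : ℕ) :
    cnt (tr k E) a N = min k (cnt (new E) a N) := by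
  induction N with
  | zero => rw [cnt_zero, cnt_zero, Nat.min_zero]
  | succ N ih =>
    rw [cnt_succ, cnt_succ, ih]
    have h : (tr k E (a, N) = true) ↔ (new E (a, N) = true ∧ cnt (new E) a N + 1 ≤ k) := by
      unfold tr
      rw [Bool.and_eq_true, decide_eq_true_eq]
    by_cases h1 : new E (a, N) = true
    · by_cases h2 : cnt (new E) a N + 1 ≤ k
      · rw [if_pos (h.mpr ⟨h1, h2⟩), if_pos h1]
        omega
      · rw [if_neg (fun h3 => h2 (h.mp h3).2), if_pos h1]
        omega
    · rw [if_neg (fun h3 => h1 (h.mp h3).1), if_neg h1]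
      omega

/-- all outputs are left if there are at most `k` different ones -/
lemma exists_tr {k : ℕ} {E : α × ℕ → Option ℕ} {a : α} (hk : AtMost k E a) {n c : ℕ}
    (h : E (a, n) = some c) : ∃ n', tr k E (a, n') = true ∧ E (a, n') = some c := by
  classical
  obtain ⟨S, hS, h1⟩ := hk
  have h2 : ∃ n', E (a, n') = some c := ⟨n, h⟩
  have h3 := Nat.find_spec h2
  have h4 : new E (a, Nat.find h2) = true := by
    refine new_iff.mpr ⟨by rw [h3]; rfl, fun n' hn' h5 => ?_⟩
    exact Nat.find_min h2 hn' (h5.trans h3)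
  refine ⟨Nat.find h2, ?_, h3⟩
  unfold tr
  rw [Bool.and_eq_true, decide_eq_true_eq]
  refine ⟨h4, ?_⟩
  have h5 : c ∈ S := h1 _ _ h3
  have h6 : cnt (new E) a (Nat.find h2) ≤ (S.erase c).card := by
    rw [cnt_eq]
    refine Finset.card_le_card_of_injOn (fun i => (E (a, i)).getD 0) ?_ ?_
    · intro i hi
      simp only [Finset.coe_filter, Finset.mem_range, Set.mem_ofPred_eq] at hi
      obtain ⟨h7, h8⟩ := hi
      obtain ⟨h9, -⟩ := new_iff.mp h8
      obtain ⟨d, hd⟩ := Option.isSome_iff_exists.mp h9
      simp only [hd, Option.getD_some, Finset.mem_coe, Finset.mem_erase]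
      refine ⟨?_, h1 _ _ hd⟩
      rintro rfl
      exact Nat.find_min h2 h7 hd
    · intro i hi j hj hij
      simp only [Finset.coe_filter, Finset.mem_range, Set.mem_ofPred_eq] at hi hj
      obtain ⟨hi1, hi2⟩ := new_iff.mp hi.2
      obtain ⟨hj1, hj2⟩ := new_iff.mp hj.2
      obtain ⟨d, hd⟩ := Option.isSome_iff_exists.mp hi1
      obtain ⟨d', hd'⟩ := Option.isSome_iff_exists.mp hj1
      simp only [hd, hd', Option.getD_some] at hij
      rcases lt_trichotomy i j with h10 | h10 | h10
      · exact absurd (hd.trans (hij ▸ hd'.symm)) (hj2 i h10)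
      · exact h10
      · exact absurd (hd'.trans (hij ▸ hd.symm)) (hi2 j h10)
  rw [Finset.card_erase_of_mem h5] at h6
  have h7 : 0 < S.card := Finset.card_pos.mpr ⟨c, h5⟩
  change cnt (new E) a (Nat.find h2) + 1 ≤ k
  omega

/-- sums -/
def sm (u : α × ℕ → ℕ) (a : α) (N : ℕ) : ℕ :=
  Nat.rec 0 (fun x ih => ih + u (a, x)) N

lemma sm_computable {u : α × ℕ → ℕ} (hu : Computable u) :
    Computable fun y : α × ℕ => sm u y.1 y.2 := by
  have h : Computable₂ fun (y : α × ℕ) (z : ℕ × ℕ) => z.2 + u (y.1, z.1) :=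
    (Primrec.nat_add.to_comp).comp ih_computable (hu.comp pair_computable')
  exact Computable.nat_rec Computable.snd (Computable.const 0) h

lemma sm_eq (u : α × ℕ → ℕ) (a : α) (N : ℕ) : sm u a N = ∑ x ∈ Finset.range N, u (a, x) := by
  induction N with
  | zero => rfl
  | succ N ih =>
    change sm u a N + u (a, N) = _
    rw [ih, Finset.sum_range_succ]

attribute [irreducible] sm

/-- the number of the outputs for the multiples of `a` up to the stage `s` -/
def tok (k : ℕ) (E : α × ℕ → Option ℕ) (M : α → ℕ) (b : α × ℕ → α) (z : α × ℕ) : ℕ :=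
  sm (fun w : (α × ℕ) × ℕ => cnt (tr k E) (b (w.1.1, w.2)) w.1.2) z (M z.1)

/-- the level -/
def lev (k : ℕ) (E : α × ℕ → Option ℕ) (M : α → ℕ) (b : α × ℕ → α) (z : α × ℕ) : ℕ :=
  2 * tok k E M b z / M z.1

/-- an output -/
def val (k : ℕ) (E : α × ℕ → Option ℕ) (z : α × ℕ) : ℕ := cond (tr k E z) ((E z).getD 0) 0

/-- the largest output -/
def lar (k : ℕ) (E : α × ℕ → Option ℕ) (M : α → ℕ) (b : α × ℕ → α) (z : α × ℕ) : ℕ :=
  mx (fun w : (α × ℕ) × ℕ => mx (val k E) (b (w.1.1, w.2)) w.1.2) z (M z.1)

section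
variable {k : ℕ} {E : α × ℕ → Option ℕ} {M : α → ℕ} {b : α × ℕ → α}

lemma tok_computable (k : ℕ) (hE : Computable E) (hM : Computable M) (hb : Computable b) :
    Computable (tok k E M b) := by
  have h1 : Computable fun w : (α × ℕ) × ℕ => cnt (tr k E) (b (w.1.1, w.2)) w.1.2 :=
    (cnt_computable (tr_computable k hE)).comp (Computable.pair
      (hb.comp (Computable.pair (Computable.fst.comp Computable.fst) Computable.snd))
      (Computable.snd.comp Computable.fst))
  exact (sm_computable h1).comp (Computable.pair Computable.id (hM.comp Computable.fst))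

lemma lev_computable (k : ℕ) (hE : Computable E) (hM : Computable M) (hb : Computable b) :
    Computable (lev k E M b) := by
  have h1 : Primrec fun z : ℕ × ℕ => 2 * z.1 / z.2 :=
    Primrec.nat_div.comp (Primrec.nat_mul.comp (Primrec.const 2) Primrec.fst) Primrec.snd
  exact h1.to_comp.comp (Computable.pair (tok_computable k hE hM hb) (hM.comp Computable.fst))

lemma val_computable (k : ℕ) (hE : Computable E) : Computable (val k E) :=
  Computable.cond (tr_computable k hE) (Computable.option_getD hE (Computable.const 0))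
    (Computable.const 0)

lemma lar_computable (k : ℕ) (hE : Computable E) (hM : Computable M) (hb : Computable b) :
    Computable (lar k E M b) := by
  have h1 : Computable fun w : (α × ℕ) × ℕ => mx (val k E) (b (w.1.1, w.2)) w.1.2 :=
    (mx_computable (val_computable k hE)).comp (Computable.pair
      (hb.comp (Computable.pair (Computable.fst.comp Computable.fst) Computable.snd))
      (Computable.snd.comp Computable.fst))
  exact mx_comp h1 (hM.comp Computable.fst)

lemma lev_le (a : α) (s : ℕ) : lev k E M b (a, s) ≤ 2 * k := by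
  unfold lev
  refine Nat.div_le_of_le_mul ?_
  have h : tok k E M b (a, s) ≤ M a * k := by
    unfold tok
    rw [sm_eq]
    refine (Finset.sum_le_card_nsmul _ _ k fun i _ => ?_).trans ?_
    · rw [cnt_tr]
      exact min_le_left _ _
    · rw [Finset.card_range, smul_eq_mul]
  simp only
  calc 2 * tok k E M b (a, s) ≤ 2 * (M a * k) := Nat.mul_le_mul_left 2 h
    _ = M a * (2 * k) := by ring

open Classical in
/-- **From lists for most multiples to lists.** -/
theorem list_of_half {V : α → ℕ → Prop} (hV : ∀ a c c', V a c → c ≤ c' → V a c')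
    (hE : Computable E) (hM : Computable M) (hb : Computable b)
    (up : ∀ a i c, V (b (a, i)) c → V a c)
    (H : ∀ a, M a < 2 * ((Finset.range (M a)).filter fun i =>
      AtMost k E (b (a, i)) ∧ ∃ n c, E (b (a, i), n) = some c ∧ V (b (a, i)) c).card) :
    ∃ E' : α × ℕ → Option ℕ, Computable E' ∧ ∀ a, AtMost (2 * k + 1) E' a ∧
      ∃ n c, E' (a, n) = some c ∧ V a c := by
  refine ⟨enum (2 * k) (lev k E M b) (lar k E M b), enum_computable _ (lev_computable k hE hM hb)
    (lar_computable k hE hM hb), fun a => ⟨enum_atMost _ _ _ a, ?_⟩⟩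
  obtain ⟨s, n, h1, h2⟩ := exists_enum (q := 2 * k) (L := lev k E M b) (lar k E M b) (a := a)
    fun s => lev_le a s
  refine ⟨n, _, h1, ?_⟩
  by_contra hcon
  set P : ℕ → Prop := fun i =>
    AtMost k E (b (a, i)) ∧ ∃ n c, E (b (a, i), n) = some c ∧ V (b (a, i)) c with hP
  -- the valid outputs come later
  have h3 : ∀ i, ∃ n, i < M a → P i → s ≤ n ∧ tr k E (b (a, i), n) = true := by
    intro i
    by_cases hi : i < M a ∧ P i
    · obtain ⟨hi, hk, n, c, h4, h5⟩ := hi
      obtain ⟨n', h6, h7⟩ := exists_tr hk h4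
      refine ⟨n', fun _ _ => ⟨?_, h6⟩⟩
      by_contra h8
      refine hcon (hV a c _ (up a i c h5) ?_)
      have h9 := le_mx (fun w : (α × ℕ) × ℕ => mx (val k E) (b (w.1.1, w.2)) w.1.2) (a, s) hi
      have h10 := le_mx (val k E) (b (a, i)) (not_le.mp h8)
      have h11 : val k E (b (a, i), n') = c := by
        unfold val
        rw [h6, h7]
        rfl
      rw [h11] at h10
      exact h10.trans h9
    · exact ⟨0, fun h4 h5 => absurd ⟨h4, h5⟩ hi⟩
  choose N hN using h3
  set s' := max s ((Finset.range (M a)).sup N + 1) with hs'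
  have h4 : tok k E M b (a, s) + ((Finset.range (M a)).filter P).card ≤ tok k E M b (a, s') := by
    unfold tok
    rw [sm_eq, sm_eq, Finset.card_filter, ← Finset.sum_add_distrib]
    refine Finset.sum_le_sum fun i hi => ?_
    simp only
    split_ifs with h5
    · obtain ⟨h6, h7⟩ := hN i (Finset.mem_range.mp hi) h5
      refine cnt_lt _ _ h6 ?_ h7
      have h8 : N i ≤ (Finset.range (M a)).sup N := Finset.le_sup (f := N) hi
      exact lt_of_lt_of_le (Nat.lt_succ_of_le h8) (le_max_right _ _)
    · rw [add_zero]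
      exact cnt_mono _ _ (le_max_left _ _)
  have h5 := h2 s'
  have h6 := H a
  unfold lev at h5
  simp only at h5
  have hM0 : 0 < M a := by
    rcases Nat.eq_zero_or_pos (M a) with h7 | h7
    · rw [h7] at h6
      simp at h6
    · exact h7
  have h7 : 2 * tok k E M b (a, s) / M a + 1 ≤ 2 * tok k E M b (a, s') / M a := by
    rw [← Nat.add_div_right _ hM0]
    refine Nat.div_le_div_right ?_
    change M a < 2 * ((Finset.range (M a)).filter P).card at h6
    omega
  omega

end

end Pool.Agent.Helper98.RA
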