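import Pool.Agent.Helper98.RA.Rand
import Pool.Agent.Helper98.RA.Half

/-!
# Randomised counting
-/

set_option autoImplicit false
set_option linter.unusedSectionVars false

namespace Pool.Agent.Helper98.RA

open Pool.Agent.Q49.EF Pool.Agent.Q328.AC

variable {α : Type} [Primcodable α]

attribute [local irreducible] Nat.unpair Nat.pair

lemma atMost_of_encard {k : ℕ} {E : α × ℕ → Option ℕ} {a : α}
    (h : {c | ∃ n, E (a, n) = some c}.encard ≤ k) : AtMost k E a := by
  have hf : {c | ∃ n, E (a, n) = some c}.Finite := Set.finite_of_encard_le_coe h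
  refine ⟨hf.toFinset, ?_, fun n c hc => hf.mem_toFinset.mpr ⟨n, hc⟩⟩
  rw [hf.encard_eq_coe_toFinset_card] at h
  exact_mod_cast h

lemma encard_of_atMost {k : ℕ} {E : α × ℕ → Option ℕ} {a : α} (h : AtMost k E a) :
    {c | ∃ n, E (a, n) = some c}.encard ≤ k := by
  obtain ⟨S, hS, h1⟩ := h
  have h2 : {c | ∃ n, E (a, n) = some c} ⊆ (S : Set ℕ) := by
    rintro c ⟨n, hn⟩
    exact h1 n c hn
  refine (Set.encard_le_encard h2).trans ?_
  rw [Set.encard_coe_eq_coe_finsetCard]
  exact_mod_cast hS

/-- from algorithms with boundedly many changes of mind to enumerations -/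
lemma atMost_of_changes {k : ℕ} {G : α × ℕ → ℕ} {a : α}
    (h : {n | G (a, n + 1) ≠ G (a, n)}.encard ≤ k) : AtMost (k + 1) (fun z => some (G z)) a := by
  classical
  have hf : {n | G (a, n + 1) ≠ G (a, n)}.Finite := Set.finite_of_encard_le_coe h
  rw [hf.encard_eq_coe_toFinset_card] at h
  have h' : hf.toFinset.card ≤ k := by exact_mod_cast h
  refine ⟨insert (G (a, 0)) (hf.toFinset.image fun n => G (a, n + 1)), ?_, ?_⟩
  · refine (Finset.card_insert_le _ _).trans ?_
    have := Finset.card_image_le (s := hf.toFinset) (f := fun n => G (a, n + 1))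
    omega
  · intro n c hc
    rw [Option.some.injEq] at hc
    subst hc
    induction n with
    | zero => exact Finset.mem_insert_self _ _
    | succ n ih =>
      by_cases h1 : G (a, n + 1) = G (a, n)
      · rw [h1]
        exact ih
      · exact Finset.mem_insert_of_mem (Finset.mem_image.mpr ⟨n, hf.mem_toFinset.mpr h1, rfl⟩)

/-- constant algorithms -/
lemma const_random {c : α → ℕ} (hc : Computable c) :
    IsRandomised fun z : α × (ℕ × ℕ) => some (c z.1) :=
  ⟨Computable.option_some.comp (hc.comp Computable.fst), fun _ _ _ _ _ h => h⟩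

lemma const_prob {c : α → ℕ} {a : α} {P : ℕ → Prop} (h : P (c a)) :
    1 ≤ prob (fun z : α × (ℕ × ℕ) => some (c z.1)) a P := by
  refine le_prob 0 ?_
  have : {x : ℕ | x < 2 ^ 0 ∧ ∃ d, (fun z : α × (ℕ × ℕ) => some (c z.1)) (a, (0, x)) = some d ∧ P d}
      = {0} := by
    ext x
    simp only [pow_zero, Nat.lt_one_iff, Option.some.injEq, exists_eq_left', Set.mem_ofPred_eq,
      Set.mem_singleton_iff]
    exact ⟨fun h1 => h1.1, fun h1 => ⟨h1, h⟩⟩
  rw [this, Set.ncard_singleton]
  norm_num

/-- the probabilities of a modified algorithm -/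
lemma prob_transfer {R R' : α × (ℕ × ℕ) → Option ℕ} (hR : IsRandomised R) {a : α} {P P' : ℕ → Prop}
    {δ : ℝ} (hδ : 0 < δ) (h : δ ≤ prob R a P) (d : ℕ)
    (hd : ∀ n x c, d ≤ n → R (a, (n, x)) = some c → P c → ∃ c', R' (a, (n, x)) = some c' ∧ P' c') :
    δ / 2 ≤ prob R' a P' := by
  classical
  obtain ⟨n, hn⟩ := exists_lt_of_lt_ciSup (lt_of_lt_of_le (half_lt_self hδ) h)
  rw [lt_div_iff₀ (by positivity)] at hn
  refine le_prob (n + d) ?_
  have h1 := card_ext n d ((Finset.range (2 ^ n)).filter fun x => ∃ c, R (a, (n, x)) = some c ∧ P c)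
    fun y hy => Finset.mem_range.mp (Finset.mem_filter.mp hy).1
  rw [← ncard_eq] at h1
  have h2 : ((Finset.range (2 ^ (n + d))).filter fun x => x % 2 ^ n ∈
      ((Finset.range (2 ^ n)).filter fun x => ∃ c, R (a, (n, x)) = some c ∧ P c)).card ≤
      {x : ℕ | x < 2 ^ (n + d) ∧ ∃ c, R' (a, (n + d, x)) = some c ∧ P' c}.ncard := by
    rw [ncard_eq]
    refine Finset.card_le_card fun x hx => ?_
    rw [Finset.mem_filter] at hx
    obtain ⟨hx1, hx2⟩ := hx
    obtain ⟨-, c, hc1, hc2⟩ := Finset.mem_filter.mp hx2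
    exact Finset.mem_filter.mpr ⟨hx1, hd _ _ c (Nat.le_add_left _ _)
      (hR.mono d (Finset.mem_range.mp hx1) hc1) hc2⟩
  have h3 := h1.trans h2
  have h4 : (2 : ℝ) ^ d * ({x : ℕ | x < 2 ^ n ∧ ∃ c, R (a, (n, x)) = some c ∧ P c}.ncard : ℝ) ≤
      ({x : ℕ | x < 2 ^ (n + d) ∧ ∃ c, R' (a, (n + d, x)) = some c ∧ P' c}.ncard : ℝ) := by
    exact_mod_cast h3
  refine le_trans ?_ h4
  rw [pow_add]
  have h5 : (0 : ℝ) < 2 ^ d := by positivity
  nlinarith

/-- the least number below `n` with `p`, if there is one -/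
def least {β : Type} [Primcodable β] (p : β × ℕ → Bool) (z : β × ℕ) : ℕ :=
  cnt (fun w : β × ℕ => !(ex p w.1 (w.2 + 1))) z.1 z.2

lemma least_computable {β : Type} [Primcodable β] {p : β × ℕ → Bool} (hp : Computable p) :
    Computable (least p) := by
  have h1 : Computable fun w : β × ℕ => !(ex p w.1 (w.2 + 1)) :=
    Primrec.not.to_comp.comp ((ex_computable hp).comp (Computable.pair Computable.fst
      (Computable.succ.comp Computable.snd)))
  exact cnt_computable h1

lemma least_eq {β : Type} [Primcodable β] {p : β × ℕ → Bool} {b : β} {t n : ℕ}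
    (h1 : p (b, t) = true) (h2 : ∀ t' < t, p (b, t') ≠ true) (h3 : t < n) : least p (b, n) = t := by
  unfold least
  rw [cnt_eq]
  have : ((Finset.range n).filter fun x => (!(ex p b (x + 1))) = true) = Finset.range t := by
    ext x
    rw [Finset.mem_filter, Finset.mem_range, Finset.mem_range, Bool.not_eq_true',
      ← Bool.not_eq_true, ex_iff]
    constructor
    · rintro ⟨-, h5⟩
      by_contra h6
      exact h5 ⟨t, by omega, h1⟩
    · intro h5
      refine ⟨by omega, ?_⟩
      rintro ⟨y, h6, h7⟩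
      exact h2 y (by omega) h7
  simp only
  rw [this, Finset.card_range]

attribute [irreducible] least

/-- from a guess for the number of objects to a bound -/
def guess (p : α × ℕ → Bool) (u : α × ℕ → ℕ) (R : α × (ℕ × ℕ) → Option ℕ) (z : α × (ℕ × ℕ)) :
    Option ℕ :=
  Option.bind (R z) fun m =>
    cond (ex (fun w : (α × ℕ) × ℕ => (cnt p w.1.1 w.2 == w.1.2)) (z.1, m) z.2.1)
      (some (mx u z.1 (least (fun w : (α × ℕ) × ℕ => (cnt p w.1.1 w.2 == w.1.2)) ((z.1, m), z.2.1))))
      none

lemma guess_iff {p : α × ℕ → Bool} {u : α × ℕ → ℕ} {R : α × (ℕ × ℕ) → Option ℕ} {a : α} {n x c : ℕ} :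
    guess p u R (a, (n, x)) = some c ↔ ∃ m, R (a, (n, x)) = some m ∧ ∃ t < n, cnt p a t = m ∧
      (∀ t' < t, cnt p a t' ≠ m) ∧ c = mx u a t := by
  classical
  unfold guess
  cases h : R (a, (n, x)) with
  | none => simp
  | some m =>
    simp only [Option.bind_some, Option.some.injEq, exists_eq_left']
    cases h1 : ex (fun w : (α × ℕ) × ℕ => (cnt p w.1.1 w.2 == w.1.2)) (a, m) n with
    | false =>
      rw [cond_false]
      refine ⟨fun h2 => absurd h2 (by simp), ?_⟩
      rintro ⟨t, h2, h3, -⟩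
      rw [← Bool.not_eq_true, ex_iff] at h1
      exact absurd ⟨t, h2, by simpa using h3⟩ h1
    | true =>
      rw [cond_true, Option.some.injEq]
      obtain ⟨t, h2, h3⟩ := (ex_iff _ _ _).mp h1
      have h3' : cnt p a t = m := by simpa using h3
      have h4 : ∃ t, cnt p a t = m := ⟨t, h3'⟩
      have h5 : Nat.find h4 < n := lt_of_le_of_lt (Nat.find_min' h4 h3') h2
      have h6 : least (fun w : (α × ℕ) × ℕ => (cnt p w.1.1 w.2 == w.1.2)) ((a, m), n) =
          Nat.find h4 := by
        refine least_eq ?_ (fun t' ht' => ?_) h5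
        · simpa using Nat.find_spec h4
        · simpa using Nat.find_min h4 ht'
      rw [h6]
      constructor
      · rintro rfl
        exact ⟨_, h5, Nat.find_spec h4, fun t' ht' => Nat.find_min h4 ht', rfl⟩
      · rintro ⟨t', h7, h8, h9, rfl⟩
        congr 1
        refine le_antisymm (Nat.find_min' h4 h8) ?_
        by_contra h10
        exact h9 _ (not_le.mp h10) (Nat.find_spec h4)

lemma guess_random {p : α × ℕ → Bool} (hp : Computable p) {u : α × ℕ → ℕ} (hu : Computable u)
    {R : α × (ℕ × ℕ) → Option ℕ} (hR : IsRandomised R) : IsRandomised (guess p u R) := by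
  refine ⟨?_, fun a n x c hx h => ?_⟩
  · have e0 : Computable fun w : (α × ℕ) × ℕ => (cnt p w.1.1 w.2 == w.1.2) :=
      Primrec.beq.to_comp.comp ((cnt_computable hp).comp
        (Computable.pair (Computable.fst.comp Computable.fst) Computable.snd))
        (Computable.snd.comp Computable.fst)
    have e1 : Computable fun v : (α × (ℕ × ℕ)) × ℕ => ((v.1.1, v.2), v.1.2.1) :=
      Computable.pair (Computable.pair (Computable.fst.comp Computable.fst) Computable.snd)
        (Computable.fst.comp (Computable.snd.comp Computable.fst))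
    generalize hP : (fun w : (α × ℕ) × ℕ => (cnt p w.1.1 w.2 == w.1.2)) = P at e0
    have e2 : Computable fun v : (α × (ℕ × ℕ)) × ℕ => ex P (v.1.1, v.2) v.1.2.1 :=
      Computable.comp (f := fun y : (α × ℕ) × ℕ => ex P y.1 y.2) (ex_computable e0) e1
    have e3 : Computable fun v : (α × (ℕ × ℕ)) × ℕ => least P ((v.1.1, v.2), v.1.2.1) :=
      Computable.comp (f := least P) (least_computable e0) e1
    have e4 : Computable fun v : (α × (ℕ × ℕ)) × ℕ => mx u v.1.1
        (least P ((v.1.1, v.2), v.1.2.1)) :=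
      Computable.comp (f := fun y : α × ℕ => mx u y.1 y.2) (mx_computable hu)
        (Computable.pair (Computable.fst.comp Computable.fst) e3)
    have e5 : Computable₂ fun (z : α × (ℕ × ℕ)) (m : ℕ) =>
        cond (ex P (z.1, m) z.2.1) (some (mx u z.1 (least P ((z.1, m), z.2.1)))) none :=
      Computable.cond e2 (Computable.option_some.comp e4) (Computable.const none)
    have e6 : Computable fun z : α × (ℕ × ℕ) => Option.bind (R z) fun m =>
        cond (ex P (z.1, m) z.2.1) (some (mx u z.1 (least P ((z.1, m), z.2.1)))) none :=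
      Computable.option_bind hR.computable e5
    subst hP
    exact e6
  · obtain ⟨m, h1, t, h2, h3, h4, h5⟩ := guess_iff.mp h
    exact guess_iff.mpr ⟨m, hR.halted a n x m hx h1, t, by omega, h3, h4, h5⟩

/-- **From randomised counting to randomised bounds.** -/
theorem bound_of_count {p : α × ℕ → Bool} (hp : Computable p)
    (hfin : ∀ a, {x | p (a, x) = true}.Finite) {u : α × ℕ → ℕ} (hu : Computable u)
    {R : α × (ℕ × ℕ) → Option ℕ} (hR : IsRandomised R) {δ : ℝ} (hδ : 0 < δ)
    {V : α → ℕ → Prop} (hV : ∀ a t, (∀ x, p (a, x) = true → x < t) → V a (mx u a t)) :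
    ∃ R' : α × (ℕ × ℕ) → Option ℕ, IsRandomised R' ∧ ∀ a,
      δ ≤ prob R a (fun m => {x | p (a, x) = true}.ncard = m) → δ / 2 ≤ prob R' a (V a) := by
  classical
  refine ⟨guess p u R, guess_random hp hu hR, fun a h => ?_⟩
  obtain ⟨T, hT⟩ := exists_cnt_eq (hfin a)
  refine prob_transfer hR hδ h (T + 1) fun n x m hn h1 h2 => ?_
  have h3 : ∃ t, cnt p a t = m := ⟨T, (hT T le_rfl).trans h2⟩
  have h4 : Nat.find h3 ≤ T := Nat.find_min' h3 ((hT T le_rfl).trans h2)
  refine ⟨_, guess_iff.mpr ⟨m, h1, Nat.find h3, by omega, Nat.find_spec h3,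
    fun t' ht' => Nat.find_min h3 ht', rfl⟩, hV a _ fun y hy => ?_⟩
  exact lt_of_cnt_eq (hfin a) ((Nat.find_spec h3).trans h2.symm) hy

end Pool.Agent.Helper98.RA
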