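import Pool.Agent.Helper98.RA.Core

/-!
# Randomised algorithms

The outcomes of the first `n` coin tosses are the `n` lowest binary digits of a number `x < 2 ^ n`.
-/

set_option autoImplicit false
set_option linter.unusedSectionVars false

namespace Pool.Agent.Helper98.RA

open Pool.Agent.Q49.EF Pool.Agent.Q328.AC

variable {α : Type} [Primcodable α]

/-- `R` is a randomised algorithm: `R (a, (n, x)) = some c` means that on the input `a` it has halted
with the output `c` when `n` coins have been tossed; `x < 2 ^ n` codes the outcomes, the first `m` of them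
are coded by `x % 2 ^ m`. So if it has halted after `n` tosses it does not toss more coins. -/
structure IsRandomised (R : α × (ℕ × ℕ) → Option ℕ) : Prop where
  computable : Computable R
  halted : ∀ (a : α) (n x c : ℕ), x < 2 ^ (n + 1) → R (a, (n, x % 2 ^ n)) = some c →
    R (a, (n + 1, x)) = some c

/-- the probability that on the input `a` the randomised algorithm halts with an output with the
property `P` -/
noncomputable def prob (R : α × (ℕ × ℕ) → Option ℕ) (a : α) (P : ℕ → Prop) : ℝ :=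
  ⨆ n : ℕ, ({x : ℕ | x < 2 ^ n ∧ ∃ c, R (a, (n, x)) = some c ∧ P c}.ncard : ℝ) / 2 ^ n

open Classical in
lemma ncard_eq (R : α × (ℕ × ℕ) → Option ℕ) (a : α) (P : ℕ → Prop) (n : ℕ) :
    {x : ℕ | x < 2 ^ n ∧ ∃ c, R (a, (n, x)) = some c ∧ P c}.ncard =
      ((Finset.range (2 ^ n)).filter fun x => ∃ c, R (a, (n, x)) = some c ∧ P c).card := by
  rw [← Set.ncard_coe_finset]
  congr 1
  ext x
  simp only [Finset.coe_filter, Finset.mem_range, Set.mem_ofPred_eq]

lemma ncard_le (R : α × (ℕ × ℕ) → Option ℕ) (a : α) (P : ℕ → Prop) (n : ℕ) :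
    {x : ℕ | x < 2 ^ n ∧ ∃ c, R (a, (n, x)) = some c ∧ P c}.ncard ≤ 2 ^ n := by
  classical
  rw [ncard_eq]
  exact (Finset.card_filter_le _ _).trans (Finset.card_range _).le

lemma bdd (R : α × (ℕ × ℕ) → Option ℕ) (a : α) (P : ℕ → Prop) : BddAbove (Set.range fun n : ℕ =>
    ({x : ℕ | x < 2 ^ n ∧ ∃ c, R (a, (n, x)) = some c ∧ P c}.ncard : ℝ) / 2 ^ n) := by
  refine ⟨1, ?_⟩
  rintro _ ⟨n, rfl⟩
  rw [div_le_one (by positivity)]
  exact_mod_cast ncard_le R a P n

/-- a positive probability -/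
lemma of_prob {R : α × (ℕ × ℕ) → Option ℕ} {a : α} {P : ℕ → Prop} {δ : ℝ} {q : ℕ}
    (hq : 2 < q * δ) (h : δ ≤ prob R a P) : ∃ n : ℕ,
      2 ^ n < q * {x : ℕ | x < 2 ^ n ∧ ∃ c, R (a, (n, x)) = some c ∧ P c}.ncard := by
  have hq0 : (0 : ℝ) < q := by
    rcases Nat.eq_zero_or_pos q with rfl | h1
    · simp at hq
      linarith
    · exact_mod_cast h1
  have hδ : 0 < δ := by
    by_contra hcon
    have : (q : ℝ) * δ ≤ 0 := mul_nonpos_of_nonneg_of_nonpos hq0.le (not_lt.mp hcon)
    linarith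
  obtain ⟨n, hn⟩ := exists_lt_of_lt_ciSup (lt_of_lt_of_le (half_lt_self hδ) h)
  refine ⟨n, ?_⟩
  rw [lt_div_iff₀ (by positivity)] at hn
  have h2 : (0 : ℝ) < 2 ^ n := by positivity
  have h3 : (2 : ℝ) ^ n <
      q * ({x : ℕ | x < 2 ^ n ∧ ∃ c, R (a, (n, x)) = some c ∧ P c}.ncard : ℝ) := by
    nlinarith
  exact_mod_cast h3

lemma le_prob {R : α × (ℕ × ℕ) → Option ℕ} {a : α} {P : ℕ → Prop} {δ : ℝ} (n : ℕ)
    (h : δ * 2 ^ n ≤ {x : ℕ | x < 2 ^ n ∧ ∃ c, R (a, (n, x)) = some c ∧ P c}.ncard) :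
    δ ≤ prob R a P := by
  refine le_trans ?_ (le_ciSup (bdd R a P) n)
  rw [le_div_iff₀ (by positivity)]
  exact h

/-- it stays halted -/
lemma IsRandomised.mono {R : α × (ℕ × ℕ) → Option ℕ} (hR : IsRandomised R) {a : α} {m x c : ℕ} (d : ℕ) :
    x < 2 ^ (m + d) → R (a, (m, x % 2 ^ m)) = some c → R (a, (m + d, x)) = some c := by
  induction d generalizing x with
  | zero =>
    intro hx h
    rwa [Nat.mod_eq_of_lt (by simpa using hx)] at h
  | succ d ih =>
    intro hx h
    have h1 : x % 2 ^ (m + d) < 2 ^ (m + d) := Nat.mod_lt _ (by positivity)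
    have h2 : x % 2 ^ (m + d) % 2 ^ m = x % 2 ^ m :=
      Nat.mod_mod_of_dvd _ (pow_dvd_pow 2 (Nat.le_add_right m d))
    exact hR.halted a (m + d) x c (by rwa [Nat.add_assoc]) (ih h1 (by rw [h2]; exact h))

/-- extensions of strings -/
lemma card_ext (m d : ℕ) (S : Finset ℕ) (hS : ∀ y ∈ S, y < 2 ^ m) :
    2 ^ d * S.card ≤ ((Finset.range (2 ^ (m + d))).filter fun x => x % 2 ^ m ∈ S).card := by
  rw [← Finset.card_range (2 ^ d), ← Finset.card_product]
  refine Finset.card_le_card_of_injOn (fun z => z.2 + 2 ^ m * z.1) ?_ ?_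
  · rintro ⟨z, y⟩ h
    simp only [Finset.coe_product, Set.mem_prod, Finset.mem_coe, Finset.mem_range] at h
    obtain ⟨h1, h2⟩ := h
    have h3 := hS y h2
    simp only [Finset.coe_filter, Finset.mem_range, Set.mem_ofPred_eq]
    refine ⟨?_, ?_⟩
    · rw [pow_add]
      calc y + 2 ^ m * z < 2 ^ m + 2 ^ m * z := by omega
        _ = 2 ^ m * (z + 1) := by ring
        _ ≤ 2 ^ m * 2 ^ d := Nat.mul_le_mul_left _ h1
    · rw [Nat.add_mul_mod_self_left, Nat.mod_eq_of_lt h3]
      exact h2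
  · rintro ⟨z, y⟩ h ⟨z', y'⟩ h' hzz
    simp only [Finset.coe_product, Set.mem_prod, Finset.mem_coe, Finset.mem_range] at h h'
    simp only at hzz
    have h3 := hS y h.2
    have h4 := hS y' h'.2
    have h5 := congrArg (fun t => t % 2 ^ m) hzz
    have h6 := congrArg (fun t => t / 2 ^ m) hzz
    simp only [Nat.add_mul_mod_self_left, Nat.mod_eq_of_lt h3, Nat.mod_eq_of_lt h4] at h5
    simp only [Nat.add_mul_div_left _ _ (Nat.two_pow_pos m), Nat.div_eq_of_lt h3,
      Nat.div_eq_of_lt h4, zero_add] at h6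
    rw [h5, h6]

/-- the number of the outcomes of `n` tosses for which the algorithm has halted -/
def halt (R : α × (ℕ × ℕ) → Option ℕ) (z : α × ℕ) : ℕ :=
  cnt (fun w : (α × ℕ) × ℕ => (R (w.1.1, (w.1.2, w.2))).isSome) z (2 ^ z.2)

/-- the largest output after `n` tosses -/
def largest (R : α × (ℕ × ℕ) → Option ℕ) (z : α × ℕ) : ℕ :=
  mx (fun w : (α × ℕ) × ℕ => (R (w.1.1, (w.1.2, w.2))).getD 0) z (2 ^ z.2)

/-- the level -/
def level (q : ℕ) (R : α × (ℕ × ℕ) → Option ℕ) (z : α × ℕ) : ℕ := q * halt R z / 2 ^ z.2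

lemma two_pow_computable : Computable fun z : α × ℕ => 2 ^ z.2 := by
  have h : Computable₂ fun (_ : α × ℕ) (w : ℕ × ℕ) => 2 * w.2 :=
    ((Primrec.nat_mul.comp (Primrec.const 2) (Primrec.snd.comp Primrec.snd)).to_comp :
      Computable fun v : (α × ℕ) × (ℕ × ℕ) => 2 * v.2.2)
  refine (Computable.nat_rec Computable.snd (Computable.const 1) h).of_eq fun z => ?_
  obtain ⟨a, n⟩ := z
  induction n with
  | zero => rfl
  | succ n ih =>
    simp only at ih ⊢
    rw [ih, pow_succ, mul_comm]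

lemma halt_computable {R : α × (ℕ × ℕ) → Option ℕ} (hR : Computable R) : Computable (halt R) := by
  have h1 : Computable fun w : (α × ℕ) × ℕ => (R (w.1.1, (w.1.2, w.2))).isSome :=
    Primrec.option_isSome.to_comp.comp (hR.comp (Computable.pair (Computable.fst.comp Computable.fst)
      (Computable.pair (Computable.snd.comp Computable.fst) Computable.snd)))
  exact cnt_comp h1 two_pow_computable

lemma largest_computable {R : α × (ℕ × ℕ) → Option ℕ} (hR : Computable R) :
    Computable (largest R) := by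
  have h1 : Computable fun w : (α × ℕ) × ℕ => (R (w.1.1, (w.1.2, w.2))).getD 0 :=
    Computable.option_getD (hR.comp (Computable.pair (Computable.fst.comp Computable.fst)
      (Computable.pair (Computable.snd.comp Computable.fst) Computable.snd))) (Computable.const 0)
  exact mx_comp h1 two_pow_computable

lemma level_computable (q : ℕ) {R : α × (ℕ × ℕ) → Option ℕ} (hR : Computable R) :
    Computable (level q R) := by
  have h1 : Primrec fun z : ℕ × ℕ => q * z.1 / z.2 :=
    Primrec.nat_div.comp (Primrec.nat_mul.comp (Primrec.const q) Primrec.fst) Primrec.snd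
  exact h1.to_comp.comp (Computable.pair (halt_computable hR) two_pow_computable)

lemma level_le (q : ℕ) (R : α × (ℕ × ℕ) → Option ℕ) (z : α × ℕ) : level q R z ≤ q := by
  unfold level
  refine Nat.div_le_of_le_mul ?_
  rw [mul_comm (2 ^ z.2)]
  refine Nat.mul_le_mul_left q ?_
  unfold halt
  rw [cnt_eq]
  exact (Finset.card_filter_le _ _).trans (Finset.card_range _).le

open Classical in
/-- **From a randomised algorithm to a list of candidates.** -/
theorem list_of_random {R : α × (ℕ × ℕ) → Option ℕ} (hR : IsRandomised R) {V : α → ℕ → Prop}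
    (hV : ∀ a c c', V a c → c ≤ c' → V a c') (q : ℕ) :
    ∃ E : α × ℕ → Option ℕ, Computable E ∧ (∀ a, AtMost (q + 1) E a) ∧
      ∀ a, (∃ n : ℕ, 2 ^ n < q * {x : ℕ | x < 2 ^ n ∧ ∃ c, R (a, (n, x)) = some c ∧ V a c}.ncard) →
        ∃ n c, E (a, n) = some c ∧ V a c := by
  refine ⟨enum q (level q R) (largest R), enum_computable q (level_computable q hR.computable)
    (largest_computable hR.computable), fun a => enum_atMost q _ _ a, ?_⟩
  rintro a ⟨n₀, hn₀⟩
  obtain ⟨s, i, h1, h2⟩ := exists_enum (q := q) (L := level q R) (largest R) (a := a)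
    fun s => level_le q R _
  refine ⟨i, _, h1, ?_⟩
  by_contra hcon
  -- nothing good has halted at the stage `s`
  have h3 : ∀ x < 2 ^ s, ∀ c, R (a, (s, x)) = some c → ¬ V a c := by
    intro x hx c hc hVc
    refine hcon (hV a c _ hVc ?_)
    have h4 := le_mx (fun w : (α × ℕ) × ℕ => (R (w.1.1, (w.1.2, w.2))).getD 0) (a, s) hx
    simp only [hc, Option.getD_some] at h4
    exact h4
  -- a later stage
  set A : ℕ → Finset ℕ := fun n => (Finset.range (2 ^ n)).filter fun x =>
    (R (a, (n, x))).isSome = true with hA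
  set G : ℕ → Finset ℕ := fun n => (Finset.range (2 ^ n)).filter fun x =>
    ∃ c, R (a, (n, x)) = some c ∧ V a c with hG
  have hhalt : ∀ n, halt R (a, n) = (A n).card := fun n => by
    unfold halt
    rw [cnt_eq]
  rw [ncard_eq] at hn₀
  -- the stage `s + n₀`
  have h4 : 2 ^ s * (G n₀).card ≤ (G (n₀ + s)).card := by
    refine (card_ext n₀ s (G n₀) fun y hy => ?_).trans (Finset.card_le_card fun x hx => ?_)
    · exact Finset.mem_range.mp (Finset.mem_filter.mp hy).1
    · rw [Finset.mem_filter] at hx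
      obtain ⟨hx1, hx2⟩ := hx
      obtain ⟨-, c, hc1, hc2⟩ := Finset.mem_filter.mp hx2
      exact Finset.mem_filter.mpr ⟨hx1, c, hR.mono s (Finset.mem_range.mp hx1) hc1, hc2⟩
  set O : Finset ℕ := (Finset.range (2 ^ (s + n₀))).filter fun x => x % 2 ^ s ∈ A s with hO
  have h5 : 2 ^ n₀ * (A s).card ≤ O.card :=
    card_ext s n₀ (A s) fun y hy => Finset.mem_range.mp (Finset.mem_filter.mp hy).1
  have hOR : ∀ x ∈ O, ∃ c, R (a, (s + n₀, x)) = some c ∧ ¬ V a c := by
    intro x hx
    obtain ⟨hx1, hx2⟩ := Finset.mem_filter.mp hx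
    obtain ⟨hx3, hx4⟩ := Finset.mem_filter.mp hx2
    obtain ⟨c, hc⟩ := Option.isSome_iff_exists.mp hx4
    exact ⟨c, hR.mono n₀ (Finset.mem_range.mp hx1) hc, h3 _ (Finset.mem_range.mp hx3) c hc⟩
  have h6 : O.card + (G (s + n₀)).card ≤ (A (s + n₀)).card := by
    rw [← Finset.card_union_of_disjoint]
    · refine Finset.card_le_card fun x hx => ?_
      rw [Finset.mem_union] at hx
      rcases hx with hx | hx
      · obtain ⟨c, hc, -⟩ := hOR x hx
        exact Finset.mem_filter.mpr ⟨(Finset.mem_filter.mp hx).1, by rw [hc]; rfl⟩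
      · obtain ⟨h7, c, hc, -⟩ := Finset.mem_filter.mp hx
        exact Finset.mem_filter.mpr ⟨h7, by rw [hc]; rfl⟩
    · rw [Finset.disjoint_left]
      intro x hx hx'
      obtain ⟨c, hc, hc'⟩ := hOR x hx
      obtain ⟨-, c', hc2, hc3⟩ := Finset.mem_filter.mp hx'
      rw [hc] at hc2
      exact hc' (Option.some.inj hc2 ▸ hc3)
  have h7 : 2 ^ (s + n₀) * (level q R (a, s) + 1) ≤ q * (A (s + n₀)).card := by
    have h8 : level q R (a, s) * 2 ^ s ≤ q * (A s).card := by
      unfold level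
      rw [hhalt]
      exact Nat.div_mul_le_self _ _
    have h9 : 2 ^ n₀ ≤ q * (G n₀).card := hn₀.le
    rw [add_comm n₀ s] at h4
    calc 2 ^ (s + n₀) * (level q R (a, s) + 1)
        = 2 ^ n₀ * (level q R (a, s) * 2 ^ s) + 2 ^ s * 2 ^ n₀ := by rw [pow_add]; ring
      _ ≤ 2 ^ n₀ * (q * (A s).card) + 2 ^ s * (q * (G n₀).card) :=
          Nat.add_le_add (Nat.mul_le_mul_left _ h8) (Nat.mul_le_mul_left _ h9)
      _ = q * (2 ^ n₀ * (A s).card) + q * (2 ^ s * (G n₀).card) := by ring
      _ ≤ q * O.card + q * (G (s + n₀)).card :=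
          Nat.add_le_add (Nat.mul_le_mul_left _ h5) (Nat.mul_le_mul_left _ h4)
      _ = q * (O.card + (G (s + n₀)).card) := by ring
      _ ≤ q * (A (s + n₀)).card := Nat.mul_le_mul_left _ h6
  have h8 : level q R (a, s) + 1 ≤ level q R (a, s + n₀) := by
    have : level q R (a, s + n₀) = q * (A (s + n₀)).card / 2 ^ (s + n₀) := by
      unfold level
      rw [hhalt]
    rw [this, Nat.le_div_iff_mul_le (by positivity), mul_comm]
    exact h7
  have h9 := h2 (s + n₀)
  omega

end Pool.Agent.Helper98.RA
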